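import Pool.Agent.Helper66_D2.Stmts
import Pool.Agent.Helper66_D2.Tool
import Pool.Agent.Helper51_D1.Cld

/-!
# Squad PP, part D2, module CL2: the defect groups of the blocks of `C` below `b₁`
-/

open scoped BigOperators

set_option linter.unusedSectionVars false

noncomputable section

namespace Pool.Agent.PP.CD2.H40

open Pool.Agent.PP Pool.Agent.Helper51_AWC Pool.Agent.Helper79_WRA Pool.Agent.PP.H20
open Pool.Agent.PP.CD2.H66

variable {F : Type} [Field F] {G : Type} [Group G] [Finite G]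

/-- the relative trace -/
def TrG (c z : G → F) : G → F := fun y => ∑ᶠ g : G, c g * z (g⁻¹ * y * g)

theorem toMA_TrG [Fintype G] (c z : G → F) : toMA (TrG c z) =
    ∑ g : G, c g • (MonoidAlgebra.single g (1 : F) * toMA z * MonoidAlgebra.single g⁻¹ (1 : F)) := by
  have h1 : TrG c z = ∑ g : G, c g • (fun y => z (g⁻¹ * y * g)) := by
    funext y
    rw [Finset.sum_apply]
    show ∑ᶠ g : G, c g * z (g⁻¹ * y * g) = _
    rw [finsum_eq_sum_of_fintype]
    rfl
  rw [h1, toMA_sum']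
  exact Finset.sum_congr rfl fun g _ => by rw [toMA_smul, toMA_conj]

/-- elements commuting with the support of the weights -/
theorem mulF_TrG {C : Subgroup G} {c z a : G → F} (hc : ∀ g, g ∉ C → c g = 0) (ha : CmF C a) :
    mulF a (TrG c z) = TrG c (mulF a z) := by
  have := Fintype.ofFinite G
  apply toMA_injective
  rw [toMA_mulF, toMA_TrG, toMA_TrG, Finset.mul_sum]
  refine Finset.sum_congr rfl fun g _ => ?_
  by_cases hg : g ∈ C
  · rw [mul_smul_comm, toMA_mulF, ← mul_assoc, ← mul_assoc, ← (cmF_iff.1 ha g hg)]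
    simp only [mul_assoc]
  · rw [hc g hg, zero_smul, zero_smul, mul_zero]

/-- conjugates of relative traces -/
theorem TrG_conj (t : G) (c z : G → F) (y : G) :
    TrG (fun g => c (t⁻¹ * g * t)) (fun g => z (t⁻¹ * g * t)) y = TrG c z (t⁻¹ * y * t) := by
  have := Fintype.ofFinite G
  show ∑ᶠ g : G, c (t⁻¹ * g * t) * z (t⁻¹ * (g⁻¹ * y * g) * t) =
    ∑ᶠ g : G, c g * z (g⁻¹ * (t⁻¹ * y * t) * g)
  rw [finsum_eq_sum_of_fintype, finsum_eq_sum_of_fintype]
  refine Fintype.sum_equiv (MulAut.conj t⁻¹).toEquiv _ _ fun g => ?_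
  show c (t⁻¹ * g * t) * z (t⁻¹ * (g⁻¹ * y * g) * t) =
    c (t⁻¹ * g * t⁻¹⁻¹) * z ((t⁻¹ * g * t⁻¹⁻¹)⁻¹ * (t⁻¹ * y * t) * (t⁻¹ * g * t⁻¹⁻¹))
  rw [inv_inv]
  congr 2
  group

theorem w_conj {C Q : Subgroup G} {c : G → F} (hc : IsW C Q c) {t : G}
    (ht : ∀ x, t⁻¹ * x * t ∈ C ↔ x ∈ C) :
    IsW C (conjS t Q) (fun g => c (t⁻¹ * g * t)) := by
  have hfQ := Fintype.ofFinite Q
  have hfQ' := Fintype.ofFinite (conjS t Q)
  refine ⟨fun g hg => hc.supp _ fun h => hg ((ht g).1 h), ?_⟩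
  intro g hg
  have h1 := hc.sum _ ((ht g).2 hg)
  rw [← h1, finsum_eq_sum_of_fintype, finsum_eq_sum_of_fintype]
  symm
  refine Fintype.sum_bijective (fun p : Q => (⟨t * p * t⁻¹, by
      rw [mem_conjS]
      have e : t⁻¹ * (t * (p : G) * t⁻¹) * t = p := by group
      rw [e]
      exact p.2⟩ : conjS t Q)) ⟨?_, ?_⟩ _ _ ?_
  · intro p p' h
    have h2 := congrArg Subtype.val h
    exact Subtype.ext (mul_left_cancel (mul_right_cancel h2))
  · rintro ⟨x, hx⟩
    rw [mem_conjS] at hx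
    refine ⟨⟨_, hx⟩, Subtype.ext ?_⟩
    show t * (t⁻¹ * x * t) * t⁻¹ = x
    group
  · intro p
    show c (t⁻¹ * g * t * p) = c (t⁻¹ * (g * (t * (p : G) * t⁻¹)) * t)
    congr 1
    group

theorem cmF_conj {Q : Subgroup G} {z : G → F} (hz : CmF Q z) (t : G) :
    CmF (conjS t Q) (fun g => z (t⁻¹ * g * t)) := by
  intro p hp x
  rw [mem_conjS] at hp
  show z (t⁻¹ * (p * x * p⁻¹) * t) = z (t⁻¹ * x * t)
  rw [← hz _ hp (t⁻¹ * x * t)]
  congr 1
  group

/-- conjugates of relative projectivity -/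
theorem prj_conj {C Q : Subgroup G} {a : G → F} (h : PrjB C Q a) {t : G}
    (ht : ∀ x, t⁻¹ * x * t ∈ C ↔ x ∈ C) :
    PrjB C (conjS t Q) (fun g => a (t⁻¹ * g * t)) := by
  obtain ⟨c, z, hc, hz, hzQ, ha⟩ := h
  refine ⟨fun g => c (t⁻¹ * g * t), fun g => z (t⁻¹ * g * t), w_conj hc ht,
    fun x hx => hz _ fun h => hx ((ht x).1 h), cmF_conj hzQ t, fun y => ?_⟩
  have h1 := TrG_conj t c z y
  show a (t⁻¹ * y * t) = _
  rw [ha]
  exact h1.symm

/-- the part of a relative trace over a right coset of `C` -/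
theorem TrG_split {K C : Subgroup G} {c z : G → F} (hc : ∀ g, g ∉ K → c g = 0)
    {d : G → F} (hd : IsW K C d) [Fintype G] : TrG c z = ∑ k : G, d k⁻¹ •
      TrG (fun h => (open Classical in if h ∈ C then c (h * k) else 0))
        (fun g => z (k⁻¹ * g * k)) := by
  classical
  have hfC := Fintype.ofFinite C
  funext y
  rw [Finset.sum_apply]
  show ∑ᶠ g : G, c g * z (g⁻¹ * y * g) = ∑ k : G, d k⁻¹ *
    ∑ᶠ h : G, (if h ∈ C then c (h * k) else 0) * z (k⁻¹ * (h⁻¹ * y * h) * k)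
  rw [finsum_eq_sum_of_fintype]
  have h1 : ∀ g : G, c g * z (g⁻¹ * y * g) =
      ∑ h : G, (if h ∈ C then d (g⁻¹ * h) * (c g * z (g⁻¹ * y * g)) else 0) := by
    intro g
    by_cases hg : g ∈ K
    · have h2 := hd.sum g⁻¹ (inv_mem hg)
      rw [finsum_eq_sum_of_fintype] at h2
      rw [← Finset.sum_filter, Finset.sum_subtype (Finset.univ.filter fun h : G => h ∈ C)
        (p := fun h => h ∈ C) (fun h => by simp), ← Finset.sum_mul, h2, one_mul]
    · rw [hc g hg, zero_mul]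
      symm
      refine Finset.sum_eq_zero fun h _ => ?_
      rw [mul_zero, ite_self]
  rw [Finset.sum_congr rfl fun g _ => h1 g, Finset.sum_comm]
  have h3 : ∀ k : G, d k⁻¹ * ∑ᶠ h : G, (if h ∈ C then c (h * k) else 0) *
      z (k⁻¹ * (h⁻¹ * y * h) * k) =
      ∑ h : G, (if h ∈ C then d k⁻¹ * (c (h * k) * z (k⁻¹ * (h⁻¹ * y * h) * k)) else 0) := by
    intro k
    rw [finsum_eq_sum_of_fintype, Finset.mul_sum]
    refine Finset.sum_congr rfl fun h _ => ?_
    by_cases hh : h ∈ C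
    · rw [if_pos hh, if_pos hh]
    · rw [if_neg hh, if_neg hh, zero_mul, mul_zero]
  rw [Finset.sum_congr rfl fun k _ => h3 k, Finset.sum_comm (s := Finset.univ)
    (t := (Finset.univ : Finset G)) (f := fun k h => if h ∈ C then d k⁻¹ *
      (c (h * k) * z (k⁻¹ * (h⁻¹ * y * h) * k)) else 0)]
  refine Finset.sum_congr rfl fun h _ => ?_
  by_cases hh : h ∈ C
  · simp only [if_pos hh]
    refine Fintype.sum_equiv (Equiv.mulLeft h⁻¹) _ _ fun g => ?_
    show d (g⁻¹ * h) * (c g * z (g⁻¹ * y * g)) = d (h⁻¹ * g)⁻¹ *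
      (c (h * (h⁻¹ * g)) * z ((h⁻¹ * g)⁻¹ * (h⁻¹ * y * h) * (h⁻¹ * g)))
    have e1 : (h⁻¹ * g)⁻¹ = g⁻¹ * h := by group
    have e2 : h * (h⁻¹ * g) = g := by group
    have e3 : g⁻¹ * h * (h⁻¹ * y * h) * (h⁻¹ * g) = g⁻¹ * y * g := by group
    rw [e1, e2, e3]
  · simp only [if_neg hh, Finset.sum_const_zero]

theorem w_split {K C P : Subgroup G} (hPC : P ≤ C) (hCK : C ≤ K) {c : G → F} (hc : IsW K P c)
    {k : G} (hk : k ∈ K) (hkC : ∀ x, k⁻¹ * x * k ∈ C ↔ x ∈ C) :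
    IsW C (conjS k P) (fun h => (open Classical in if h ∈ C then c (h * k) else 0)) := by
  classical
  have hfP := Fintype.ofFinite P
  have hfP' := Fintype.ofFinite (conjS k P)
  refine ⟨fun g hg => if_neg hg, ?_⟩
  intro g hg
  have h1 := hc.sum (g * k) (mul_mem (hCK hg) hk)
  rw [← h1, finsum_eq_sum_of_fintype, finsum_eq_sum_of_fintype]
  symm
  refine Fintype.sum_bijective (fun p : P => (⟨k * p * k⁻¹, by
      rw [mem_conjS]
      have e : k⁻¹ * (k * (p : G) * k⁻¹) * k = p := by group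
      rw [e]
      exact p.2⟩ : conjS k P)) ⟨?_, ?_⟩ _ _ ?_
  · intro p p' h
    have h2 := congrArg Subtype.val h
    exact Subtype.ext (mul_left_cancel (mul_right_cancel h2))
  · rintro ⟨x, hx⟩
    rw [mem_conjS] at hx
    refine ⟨⟨_, hx⟩, Subtype.ext ?_⟩
    show k * (k⁻¹ * x * k) * k⁻¹ = x
    group
  · intro p
    show c (g * k * p) = (if g * (k * (p : G) * k⁻¹) ∈ C then c (g * (k * (p : G) * k⁻¹) * k)
      else 0)
    rw [if_pos]
    · congr 1
      group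
    · refine mul_mem hg ((hkC _).1 ?_)
      have e : k⁻¹ * (k * (p : G) * k⁻¹) * k = p := by group
      rw [e]
      exact hPC p.2

/-- sums with weights do not depend on the weights -/
theorem w_indep {C Q : Subgroup G} {c c' : G → F} (hc : IsW C Q c) (hc' : IsW C Q c')
    {h : G → F} (hh : ∀ g, ∀ q ∈ Q, h (g * q) = h g) [Fintype G] :
    ∑ g : G, c g * h g = ∑ g : G, c' g * h g := by
  classical
  have hfQ := Fintype.ofFinite Q
  have h1 : ∀ g : G, c g * h g = ∑ q : Q, c g * h g * c' (g * q) := by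
    intro g
    rw [← Finset.mul_sum]
    by_cases hg : g ∈ C
    · have h2 := hc'.sum g hg
      rw [finsum_eq_sum_of_fintype] at h2
      rw [h2, mul_one]
    · rw [hc.supp g hg, zero_mul, zero_mul]
  have h2 : ∀ g : G, c' g * h g = ∑ q : Q, c (g * (q : G)⁻¹) * h g * c' g := by
    intro g
    rw [← Finset.sum_mul, ← Finset.sum_mul]
    by_cases hg : g ∈ C
    · have h3 := hc.sum g hg
      rw [finsum_eq_sum_of_fintype] at h3
      have h4 : ∑ q : Q, c (g * (q : G)⁻¹) = 1 := by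
        rw [← h3]
        exact Fintype.sum_equiv (Equiv.inv Q) _ _ fun q => rfl
      rw [h4, one_mul, mul_comm]
    · rw [hc'.supp g hg, zero_mul, mul_zero]
  rw [Finset.sum_congr rfl fun g _ => h1 g, Finset.sum_congr rfl fun g _ => h2 g,
    Finset.sum_comm, Finset.sum_comm (s := (Finset.univ : Finset G)) (t := (Finset.univ : Finset Q))
      (f := fun g q => c (g * (q : G)⁻¹) * h g * c' g)]
  refine Finset.sum_congr rfl fun q _ => ?_
  refine Fintype.sum_equiv (Equiv.mulRight (q : G)) _ _ fun g => ?_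
  show c g * h g * c' (g * q) = c (g * q * (q : G)⁻¹) * h (g * q) * c' (g * q)
  rw [mul_inv_cancel_right, hh g q q.2]

/-- the relative trace commutes with `C` -/
theorem cmF_TrG {C Q : Subgroup G} {c z : G → F} (hc : IsW C Q c) (hz : CmF Q z) :
    CmF C (TrG c z) := by
  have := Fintype.ofFinite G
  intro s hs y
  show ∑ᶠ g : G, c g * z (g⁻¹ * (s * y * s⁻¹) * g) = ∑ᶠ g : G, c g * z (g⁻¹ * y * g)
  rw [finsum_eq_sum_of_fintype, finsum_eq_sum_of_fintype]
  have hc' : IsW C Q (fun g => c (s * g)) := by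
    refine ⟨fun g hg => hc.supp _ fun h => hg ?_, fun g hg => ?_⟩
    · have h1 := mul_mem (inv_mem hs) h
      rwa [inv_mul_cancel_left] at h1
    · rw [← hc.sum (s * g) (mul_mem hs hg)]
      exact finsum_congr fun q => by rw [mul_assoc]
  rw [w_indep hc hc' (h := fun g => z (g⁻¹ * y * g))]
  · symm
    refine Fintype.sum_equiv (Equiv.mulLeft s) _ _ fun g => ?_
    show c (s * g) * z (g⁻¹ * y * g) = c (s * g) * z ((s * g)⁻¹ * (s * y * s⁻¹) * (s * g))
    congr 2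
    group
  · intro g q hq
    show z ((g * q)⁻¹ * y * (g * q)) = z (g⁻¹ * y * g)
    rw [← hz _ (inv_mem hq) (g⁻¹ * y * g)]
    congr 1
    group

theorem spF_TrG {C : Subgroup G} {c z : G → F} (hc : ∀ g, g ∉ C → c g = 0) (hz : SpF C z) :
    SpF C (TrG c z) := by
  intro y hy
  show ∑ᶠ g : G, c g * z (g⁻¹ * y * g) = 0
  rw [finsum_eq_zero_of_forall_eq_zero]
  intro g
  by_cases hg : g ∈ C
  · rw [hz, mul_zero]
    intro h
    apply hy
    have h1 := mul_mem (mul_mem hg h) (inv_mem hg)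
    have e : g * (g⁻¹ * y * g) * g⁻¹ = y := by group
    rwa [e] at h1
  · rw [hc g hg, zero_mul]

theorem P_le {ℓ n : ℕ} {N P : Subgroup G} {y₁ : G} {b : G → F} (h : ClS ℓ n N P y₁ b) :
    P ≤ N ⊓ CY y₁ := by
  intro p hp
  refine ⟨h.le hp, Subgroup.mem_centralizer_iff.2 ?_⟩
  intro z hz
  have hcyc := h.cyc
  have hzP : z ∈ P := (Subgroup.zpowers_le.2 h.mem) hz
  have h1 : (⟨z, hzP⟩ : P) * ⟨p, hp⟩ = ⟨p, hp⟩ * ⟨z, hzP⟩ := by
    have := IsCyclic.commGroup (α := P)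
    exact IsMulCommutative.is_comm.comm _ _
  exact congrArg Subtype.val h1

theorem norm_C {N : Subgroup G} (hN : N.Normal) {y₁ k : G} (hk : k ∈ NY y₁) (x : G) :
    k⁻¹ * x * k ∈ N ⊓ CY y₁ ↔ x ∈ N ⊓ CY y₁ := by
  have key : ∀ g : G, g ∈ NY y₁ → ∀ x : G, x ∈ N ⊓ CY y₁ → g * x * g⁻¹ ∈ N ⊓ CY y₁ := by
    rintro g hg x ⟨hx, hxc⟩
    refine ⟨hN.conj_mem x hx g, ?_⟩
    have hx' := Subgroup.mem_centralizer_iff.1 hxc
    refine Subgroup.mem_centralizer_iff.2 ?_
    intro z hz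
    have h1 : g⁻¹ * z * g ∈ Subgroup.zpowers y₁ := by
      have := (Subgroup.mem_normalizer_iff.1 (inv_mem hg) z).1 hz
      rwa [inv_inv] at this
    have h2 := hx' _ h1
    calc z * (g * x * g⁻¹) = g * ((g⁻¹ * z * g) * x) * g⁻¹ := by group
      _ = g * (x * (g⁻¹ * z * g)) * g⁻¹ := by rw [h2]
      _ = g * x * g⁻¹ * z := by group
  constructor
  · intro h
    have h1 := key k hk _ h
    have e : k * (k⁻¹ * x * k) * k⁻¹ = x := by group
    rwa [e] at h1
  · intro h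
    have h1 := key k⁻¹ (inv_mem hk) _ h
    rwa [inv_inv] at h1

/-- one block of `C` below `b₁` with defect group `P` -/
theorem cl2_one (hbrp : BrpStmt) (hbrq : BrqStmt) (hbld : BldStmt) (hinv : InvStmt) {ℓ : ℕ}
    [Fact ℓ.Prime] (hF : GoodF ℓ F) {n : ℕ} {N P : Subgroup G} {y₁ : G} {b : G → F}
    (h : ClS ℓ n N P y₁ b) :
    ∃ e₀ : G → F, BlC (N ⊓ CY y₁) (bY y₁ b) e₀ ∧ PrjB (N ⊓ CY y₁) P e₀ ∧ br P e₀ ≠ 0 := by
  classical
  have hfG := Fintype.ofFinite G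
  have hfC := Fintype.ofFinite (N ⊓ CY y₁ : Subgroup G)
  have hPC : P ≤ N ⊓ CY y₁ := P_le h
  have hCK : N ⊓ CY y₁ ≤ N ⊓ NY y₁ := inf_le_inf_left _ (CY_le_NY y₁)
  have hPK : P ≤ N ⊓ NY y₁ := hPC.trans hCK
  have hPp : IsPGroup ℓ P := IsPGroup.of_card (n := n + 1) h.card
  have hy₁ : Subgroup.zpowers y₁ ≤ P := Subgroup.zpowers_le.2 h.mem
  have hy₁p : IsPGroup ℓ (Subgroup.zpowers y₁) := hPp.to_le hy₁
  -- the idempotent `b₁`
  have hb₁s : SpF (N ⊓ CY y₁) (bY y₁ b) := bY_sp h.supp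
  have hb₁K : CmF (N ⊓ NY y₁) (bY y₁ b) := bY_cm (cmF_of_cl h.idem.1 N)
  have hb₁C : CmF (N ⊓ CY y₁) (bY y₁ b) := hb₁K.mono hCK
  have hb₁b : mulF (bY y₁ b) (bY y₁ b) = bY y₁ b := by
    rw [← bY_mulF hF hy₁p (cmF_of_cl h.idem.1 _) (cmF_of_cl h.idem.1 _), h.idem.2]
  have hbrcent : Subgroup.centralizer (P : Set G) ≤ CY y₁ :=
    Subgroup.centralizer_le hy₁
  have hbr₁ : br P (bY y₁ b) = br P b := by
    funext x
    by_cases hx : x ∈ Subgroup.centralizer (P : Set G)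
    · rw [_root_.Pool.Agent.PP.H66.br_of_mem hx, _root_.Pool.Agent.PP.H66.br_of_mem hx]
      exact _root_.Pool.Agent.PP.H66.br_of_mem (hbrcent hx)
    · rw [_root_.Pool.Agent.PP.H66.br_of_not_mem hx, _root_.Pool.Agent.PP.H66.br_of_not_mem hx]
  obtain ⟨m, e, he1, -, he3⟩ := hbld ℓ F hF G (N ⊓ CY y₁) (bY y₁ b) hb₁s hb₁C hb₁b
  obtain ⟨t, ht⟩ : ∃ t, br P (e t) ≠ 0 := by
    by_contra hcon
    push Not at hcon
    apply h.brn
    rw [← hbr₁, ← he3]
    funext x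
    by_cases hx : x ∈ Subgroup.centralizer (P : Set G)
    · rw [_root_.Pool.Agent.PP.H66.br_of_mem hx, Finset.sum_apply]
      refine Finset.sum_eq_zero fun t _ => ?_
      have h1 := congrFun (hcon t) x
      rw [_root_.Pool.Agent.PP.H66.br_of_mem hx] at h1
      exact h1
    · rw [_root_.Pool.Agent.PP.H66.br_of_not_mem hx]
      rfl
  have hblc := he1 t
  set e₀ : G → F := e t with he₀
  refine ⟨e₀, hblc, ?_, ht⟩
  -- the relative trace from `P` to `K`
  obtain ⟨c, z, hc, hz, hzP, hbz⟩ := h.prj1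
  have hKK : (N ⊓ NY y₁) ⊓ NY y₁ = N ⊓ NY y₁ := by rw [inf_assoc, inf_idem]
  have h1 := hbrq ℓ F hF G n (N ⊓ NY y₁) P y₁ hPK h.cyc h.card h.mem h.ord c c z hc
    (by rw [hKK]; exact hc) hzP
  have h2 : (fun x => ∑ᶠ g : G, c g * z (g⁻¹ * x * g)) = bY y₁ b := by
    funext x
    exact (hbz x).symm
  have hbb : bY y₁ (bY y₁ b) = bY y₁ b := by
    funext x
    by_cases hx : x ∈ Subgroup.centralizer (Subgroup.zpowers y₁ : Set G)
    · exact _root_.Pool.Agent.PP.H66.br_of_mem hx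
    · have h3 : bY y₁ (bY y₁ b) x = 0 := _root_.Pool.Agent.PP.H66.br_of_not_mem hx
      have h4 : bY y₁ b x = 0 := _root_.Pool.Agent.PP.H66.br_of_not_mem hx
      rw [h3, h4]
  rw [h2, hbb] at h1
  set z₁ : G → F := bY y₁ z with hz₁
  have hbT : bY y₁ b = TrG c z₁ := h1
  have hz₁s : SpF (N ⊓ CY y₁) z₁ := by
    have h3 : SpF ((N ⊓ NY y₁) ⊓ CY y₁) z₁ := bY_sp hz
    exact h3.mono (by
      intro x hx
      exact ⟨hx.1.1, hx.2⟩)
  have hPNY : P ≤ NY y₁ := hPK.trans inf_le_right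
  have hz₁P : CmF P z₁ := by
    have h3 : CmF (P ⊓ NY y₁) z₁ := bY_cm (y := y₁) (H := P) hzP
    rwa [inf_eq_left.2 hPNY] at h3
  -- weights for `K` and `C`
  obtain ⟨d, hd⟩ := D1H51.exists_w F hCK
  have hsplit := TrG_split (C := N ⊓ CY y₁) (z := z₁) hc.supp hd
  set C : Subgroup G := N ⊓ CY y₁ with hC
  -- a representation
  obtain ⟨r, ρ, hρ, hρe⟩ := H20.blk_rep hF hblc.blk.1 hblc.blk.2.1
  let T : G → G → F := fun k => TrG (fun h => if h ∈ C then c (h * k) else 0)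
    (fun g => z₁ (k⁻¹ * g * k))
  have hbT' : bY y₁ b = ∑ k : G, d k⁻¹ • T k := by
    rw [hbT]
    exact hsplit
  have hρb : ev ρ (fun x : C => bY y₁ b x) = 1 := by
    have h3 : mulF (fun x : C => bY y₁ b x) (fun x : C => e₀ x) = fun x : C => e₀ x := by
      rw [← H46.restr_ext0 (mulF (fun x : C => bY y₁ b x) (fun x : C => e₀ x)), H46.ext0_mul,
        H46.ext0_restr hb₁s, H46.ext0_restr hblc.supp, hblc.le]
    have h4 := congrArg (ev ρ) h3
    rw [H20.ev_mulF, hρe, mul_one] at h4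
    exact h4
  have hdK : ∀ k : G, k ∉ N ⊓ NY y₁ → d k⁻¹ = 0 := fun k hk => hd.supp _ fun h' => hk (by
    have := inv_mem h'
    rwa [inv_inv] at this)
  have hr : NeZero r := ⟨hρ.1.ne'⟩
  obtain ⟨k, hk, hTk⟩ : ∃ k ∈ N ⊓ NY y₁, ev ρ (fun x : C => T k x) ≠ 0 := by
    by_contra hcon
    push Not at hcon
    have h3 : (fun x : C => bY y₁ b x) = ∑ k : G, d k⁻¹ • (fun x : C => T k x) := by
      funext x
      rw [hbT', Finset.sum_apply, Finset.sum_apply]
      rfl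
    rw [h3, D1H51.ev_lin, Finset.sum_eq_zero] at hρb
    · have h4 : Matrix.scalar (Fin r) (1 : F) = Matrix.scalar (Fin r) (0 : F) := by
        rw [map_one, map_zero, hρb]
      exact one_ne_zero (Matrix.scalar_inj.1 h4)
    · intro k _
      by_cases hk : k ∈ N ⊓ NY y₁
      · rw [hcon k hk, smul_zero]
      · rw [hdK k hk, zero_smul]
  have hkC : ∀ x, k⁻¹ * x * k ∈ C ↔ x ∈ C := norm_C h.normal hk.2
  have hw := w_split hPC hCK hc hk hkC
  have hzk : CmF (conjS k P) (fun g => z₁ (k⁻¹ * g * k)) := cmF_conj hz₁P k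
  have hzks : SpF C (fun g => z₁ (k⁻¹ * g * k)) := fun x hx => hz₁s _ fun h' => hx ((hkC x).1 h')
  have hTC : CmF C (T k) := cmF_TrG hw hzk
  have hTs : SpF C (T k) := spF_TrG hw.supp hzks
  have hTcl : IsCl (fun x : C => T k x) := fun x s => hTC s s.2 x
  obtain ⟨w, hwT, -⟩ := H20.eig F C r ρ hρ _ hTcl
  have hw0 : w ≠ 0 := by
    rintro rfl
    apply hTk
    rw [hwT, map_zero]
  obtain ⟨u, hu, hub⟩ := hinv ℓ F hF C (fun x : C => e₀ x) (fun x : C => T k x) hblc.blk hTcl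
    (D1H51.not_nil hρ hw0 hwT hρe)
  set U : G → F := ext0 C u with hU
  have hUC : CmF C U := fun m hm y => D1H51.ext0_inv hu hm y
  have hUs : SpF C U := fun y hy => H46.ext0_of_not_mem _ hy
  have he₀C : CmF C e₀ := by
    have h3 : e₀ = ext0 C (fun x : C => e₀ x) := (H46.ext0_restr hblc.supp).symm
    rw [h3]
    exact fun m hm y => D1H51.ext0_inv hblc.blk.1.1 hm y
  have hprod : mulF (mulF e₀ U) (T k) = e₀ := by
    have h3 : mulF e₀ (mulF (T k) U) = e₀ := by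
      have h4 := congrArg (ext0 C) hub
      rw [H46.ext0_mul, H46.ext0_mul, H46.ext0_restr hblc.supp, H46.ext0_restr hTs] at h4
      exact h4
    rw [mulF_assoc, cm_comm hUC hTs]
    exact h3
  have hprod' : TrG (fun h => if h ∈ C then c (h * k) else 0)
      (mulF (mulF e₀ U) (fun g => z₁ (k⁻¹ * g * k))) = e₀ := by
    rw [← mulF_TrG hw.supp (he₀C.mul hUC)]
    exact hprod
  have hQC : conjS k P ≤ C := by
    intro x hx
    rw [mem_conjS] at hx
    exact (hkC x).1 (hPC hx)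
  have ha1 : CmF (conjS k P) (mulF (mulF e₀ U) (fun g => z₁ (k⁻¹ * g * k))) :=
    ((he₀C.mul hUC).mono hQC).mul hzk
  have ha2 : SpF C (mulF (mulF e₀ U) (fun g => z₁ (k⁻¹ * g * k))) :=
    (hblc.supp.mul hUs).mul hzks
  have hprj : PrjB C (conjS k P) e₀ :=
    ⟨_, _, hw, ha2, ha1, fun y => (congrFun hprod' y).symm⟩
  obtain ⟨s, hs, hPs⟩ := (hbrp ℓ F hF G C P (conjS k P) hPp hPC hQC _ _ hw ha1).1 (by
    intro h0
    apply ht
    have h5 : (fun x => ∑ᶠ g : G, (fun h => if h ∈ C then c (h * k) else 0) g *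
      (mulF (mulF e₀ U) (fun g => z₁ (k⁻¹ * g * k))) (g⁻¹ * x * g)) = e₀ := hprod'
    rw [h5] at h0
    exact h0)
  have hPeq : P = conjS s (conjS k P) :=
    Subgroup.eq_of_le_of_card_ge hPs (by rw [card_conjS, card_conjS])
  have hsC : ∀ x, s⁻¹ * x * s ∈ C ↔ x ∈ C := by
    intro x
    constructor
    · intro h'
      have h1 := mul_mem (mul_mem hs h') (inv_mem hs)
      have e : s * (s⁻¹ * x * s) * s⁻¹ = x := by group
      rwa [e] at h1
    · intro h'
      exact mul_mem (mul_mem (inv_mem hs) h') hs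
  have hfin := prj_conj hprj hsC
  rw [← hPeq] at hfin
  have h6 : (fun g => e₀ (s⁻¹ * g * s)) = e₀ := by
    funext g
    have := he₀C s⁻¹ (inv_mem hs) g
    rwa [inv_inv] at this
  rwa [h6] at hfin

/-- CL2 -/
theorem cl2 (hcl1 : Cl1Stmt) (hbrp : BrpStmt) (hbrq : BrqStmt) (hbld : BldStmt)
    (hinv : InvStmt) : Cl2Stmt := by
  intro ℓ _ F _ hF G _ _ n N P y₁ b h e' he'
  obtain ⟨e₀, h0, hprj, hbr⟩ := cl2_one hbrp hbrq hbld hinv hF h
  obtain ⟨k, hk, hk'⟩ := hcl1 ℓ F hF G n N P y₁ b h e₀ e' h0 he'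
  refine ⟨k, hk, ?_, ?_⟩
  · rw [hk']
    exact prj_conj hprj (norm_C h.normal hk.2)
  · intro h1
    apply hbr
    funext x
    by_cases hx : x ∈ Subgroup.centralizer (P : Set G)
    · rw [_root_.Pool.Agent.PP.H66.br_of_mem hx]
      have h2 : k * x * k⁻¹ ∈ Subgroup.centralizer (conjS k P : Set G) := by
        rw [Subgroup.mem_centralizer_iff]
        intro y hy
        have hy' : k⁻¹ * y * k ∈ P := mem_conjS.1 hy
        have h4 := Subgroup.mem_centralizer_iff.1 hx _ hy'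
        calc y * (k * x * k⁻¹) = k * (k⁻¹ * y * k * x) * k⁻¹ := by group
          _ = k * (x * (k⁻¹ * y * k)) * k⁻¹ := by rw [h4]
          _ = k * x * k⁻¹ * y := by group
      have h3 := congrFun h1 (k * x * k⁻¹)
      rw [_root_.Pool.Agent.PP.H66.br_of_mem h2, hk'] at h3
      have e : k⁻¹ * (k * x * k⁻¹) * k = x := by group
      have h4 : e₀ (k⁻¹ * (k * x * k⁻¹) * k) = 0 := h3
      rw [e] at h4
      exact h4
    · rw [_root_.Pool.Agent.PP.H66.br_of_not_mem hx]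
      rfl

end Pool.Agent.PP.CD2.H40
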